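import Pool.Agent.H30.GMC.StT

/-!
XSPE: specialisation in the chart `i`.
-/

open AlgebraicGeometry CategoryTheory FCB MvPolynomial

namespace GMC

theorem xspe_thm (h1 : S_PSB) (h2 : S_VPT) (h3 : S_XDEH) (h4 : S_XPDH) : S_XSPE := by
  intro M ξ hξ i x y p q hx hy hp hq
  have hspec : x ⤳ y ↔ M.P x ≤ M.P y := (h2 M.V).1 x y
  rw [hspec]
  constructor
  · intro h F hF
    obtain ⟨d, A, hA, hAF⟩ := (h3 M ξ hξ i).2 F
    have hAx : A ∈ M.P x := (h4 M ξ hξ i x p hx hp d A hA).2 (by rw [hAF]; exact hF)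
    have := (h4 M ξ hξ i y q hy hq d A hA).1 (h hAx)
    rwa [hAF] at this
  · intro h A hA
    have key := (h1 9).2.1
    have hAd := (key (M.emb x) A).1 hA
    refine (key (M.emb y) A).2 fun d => ?_
    have hmem : homogeneousComponent d A ∈ grd 9 d := homogeneousComponent_mem d A
    exact (h4 M ξ hξ i y q hy hq d _ hmem).2 (h ((h4 M ξ hξ i x p hx hp d _ hmem).1 (hAd d)))

end GMC
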